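import Pool.Agent.H992.SF.GDefs

/-!
# SG/CLS: convergence for one class (helper323, for project SG of helper992)
-/

set_option autoImplicit false
open MeasureTheory Filter Topology Complex ProbabilityTheory
open scoped ContDiff ENNReal

namespace Pool.Agent.H323.SG

open Pool.Agent.N661.BR (MW lin shift IsStationary IsErgodic IsRandomWave)
open Pool.Agent.N814.BHM (P mass)
open Pool.Agent.N814.BHASM (Hyp probP)
open Pool.Agent.H992.LB (eγ eγ_norm eγ_meas eX eX_norm SX nn val)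
open Pool.Agent.H992.SF

namespace CLS

theorem prob_pr (d : ℕ) (γ : Measure MW) [IsProbabilityMeasure γ] :
    IsProbabilityMeasure (pr d γ) := by
  unfold pr
  infer_instance

theorem eJ_norm {d : ℕ} (τ : Fin d → ℂ →₀ ℝ) (F : Fin d → MW) : ‖eJ τ F‖ = 1 := by
  unfold eJ
  rw [norm_prod]
  exact Finset.prod_eq_one fun i _ => eγ_norm _ _

theorem eJ_meas {d : ℕ} (τ : Fin d → ℂ →₀ ℝ) : Measurable (eJ τ) := by
  unfold eJ
  exact Finset.measurable_fun_prod _ fun i _ => (eγ_meas (τ i)).comp (measurable_pi_apply i)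

theorem eXJ_norm {d : ℕ} (lam : Fin d → ℝ) (u : Fin d → ℂ → ℝ) (τ : Fin d → ℂ →₀ ℝ)
    (p : ℂ × (ℝ × Bool)) : ‖eXJ lam u τ p‖ = 1 := by
  unfold eXJ
  rw [norm_prod]
  exact Finset.prod_eq_one fun i _ => eX_norm _ _ _ _

theorem eXJ_zero {d : ℕ} (lam : Fin d → ℝ) (u : Fin d → ℂ → ℝ) (p : ℂ × (ℝ × Bool)) :
    eXJ lam u 0 p = 1 := by
  unfold eXJ
  refine Finset.prod_eq_one fun i _ => ?_
  unfold eX SX
  simp

theorem eJ_zero {d : ℕ} (F : Fin d → MW) : eJ (0 : Fin d → ℂ →₀ ℝ) F = 1 := by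
  unfold eJ
  refine Finset.prod_eq_one fun i _ => ?_
  unfold eγ val
  simp

end CLS

open CLS in
/-- **SG/CLS** -/
theorem cls (h1 : S_RZ) (h2 : S_CORE) (h3 : S_JDIFF) (h4 : S_EXT) : S_CLS := by
  intro d Ω lam u hd H hS γ hγp hγ U hU hne A hBd τ hτ
  have hPr := probP (H ⟨0, hd⟩)
  have hpr := prob_pr d γ
  rw [tendsto_iff_ultrafilter]
  intro g hg
  set Gn : (Fin d → ℂ →₀ ℝ) → ℕ → ℂ := fun τ n =>
    ∫ p, eXJ (fun i => lam i n) (fun i => u i n) τ p ∂(P Ω) with hGn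
  have hGb : ∀ τ n, ‖Gn τ n‖ ≤ 1 := by
    intro τ n
    refine (norm_integral_le_of_norm_le (integrable_const (1:ℝ))
      (Eventually.of_forall fun p => (eXJ_norm _ _ _ p).le)).trans ?_
    simp
  -- the limits along the ultrafilter
  have hlim : ∀ τ : Fin d → ℂ →₀ ℝ, ∃ L : ℂ, Tendsto (Gn τ) g (𝓝 L) := by
    intro τ
    have h1 : (g.map (Gn τ) : Filter ℂ) ≤ 𝓟 (Metric.closedBall (0:ℂ) 1) := by
      rw [Filter.le_principal_iff, Ultrafilter.coe_map, Filter.mem_map]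
      refine Filter.univ_mem' fun n => ?_
      rw [Set.mem_preimage, mem_closedBall_zero_iff]
      exact hGb τ n
    obtain ⟨L, -, hL⟩ := (isCompact_closedBall (0:ℂ) 1).ultrafilter_le_nhds _ h1
    exact ⟨L, hL⟩
  choose L hL using hlim
  have hLd : ∀ τ τ', ‖L τ - L τ'‖ ≤ ∑ i, √(nn (τ i - τ' i)) := by
    intro τ τ'
    refine le_of_forall_pos_le_add fun ε hε => ?_
    exact le_of_tendsto ((hL τ).sub (hL τ')).norm (hg (h3 d Ω lam u H τ τ' ε hε))
  have hL0 : L 0 = 1 := by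
    refine tendsto_nhds_unique (hL 0) ?_
    have : ∀ n, Gn 0 n = 1 := by
      intro n
      show ∫ p, eXJ (fun i => lam i n) (fun i => u i n) 0 p ∂(P Ω) = 1
      have e1 : ∫ p, eXJ (fun i => lam i n) (fun i => u i n) 0 p ∂(P Ω) =
          ∫ _p : ℂ × (ℝ × Bool), (1 : ℂ) ∂(P Ω) :=
        integral_congr_ae (Eventually.of_forall fun p => eXJ_zero _ _ p)
      rw [e1]
      simp
    exact tendsto_const_nhds.congr fun n => (this n).symm
  obtain ⟨C, hC⟩ := hBd
  obtain ⟨h, hh, hrep⟩ := h1 (Fin d → MW) inferInstance (pr d γ) hpr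
    {τ : Fin d → ℂ →₀ ℝ // On A τ ∧ In U τ} (fun k => eJ k.1) (fun k => L k.1) C
    (fun k => eJ_meas k.1) (fun k x => (eJ_norm k.1 x).le) (by
      intro n c τ
      have h5 : Tendsto (fun l => ‖∑ m, c m * Gn (τ m).1 l‖ ^ 2) g
          (𝓝 (‖∑ m, c m * L (τ m).1‖ ^ 2)) := by
        refine Tendsto.pow (Tendsto.norm ?_) 2
        exact tendsto_finsetSum _ fun m _ => (hL _).const_mul _
      refine le_of_forall_pos_le_add fun ε hε => ?_
      exact le_of_tendsto h5 (hg (hC n c (fun m => (τ m).1) (fun m => (τ m).2.1)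
        (fun m => (τ m).2.2) ε hε)))
  have hall := h4 γ hγp hγ d U hU hne A h hh L hLd (fun τ h5 h6 => hrep ⟨τ, h5, h6⟩)
  have hcore := h2 d Ω lam u H hS γ hγp hγ A ∅ (fun i _ j hj => absurd hj (Finset.notMem_empty j))
    (fun _ => 1) (Or.inr rfl) 0 (fun i _ => rfl) g hg h hh (by
      intro τ hτ
      rw [← hall τ hτ]
      refine (hL τ).congr fun n => ?_
      rw [hGn]
      refine integral_congr_ae (Eventually.of_forall fun p => ?_)
      simp) τ hτ
  have hone : ∫ F, (starRingEnd ℂ) (h F) ∂(pr d γ) = 1 := by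
    rw [← hL0, hall 0 (fun i _ => rfl)]
    refine integral_congr_ae (Eventually.of_forall fun F => ?_)
    simp only [eJ_zero, mul_one]
  rw [hone, mul_one] at hcore
  rw [← hcore, ← hall τ hτ]
  exact hL τ

end Pool.Agent.H323.SG
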