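import Pool.Agent.H992.SF.GDefs

/-!
# SG/EXT: from the points of `U` to all points (helper323, for project SG of helper992)
-/

set_option autoImplicit false
open MeasureTheory Filter Topology Complex ProbabilityTheory
open scoped ContDiff ENNReal

namespace Pool.Agent.H323.SG

open Pool.Agent.N661.BR (MW lin shift IsStationary IsErgodic IsRandomWave)
open Pool.Agent.H992.LB (eγ eγ_norm eγ_meas eγ_sub nn nn_le sb sb_add val val_meas val_sq)
open Pool.Agent.H992.SF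

theorem prob_pr (d : ℕ) (γ : Measure MW) [IsProbabilityMeasure γ] :
    IsProbabilityMeasure (pr d γ) := by
  unfold pr
  infer_instance

theorem eJ_norm {d : ℕ} (τ : Fin d → ℂ →₀ ℝ) (F : Fin d → MW) : ‖eJ τ F‖ = 1 := by
  unfold eJ
  rw [norm_prod]
  exact Finset.prod_eq_one fun i _ => eγ_norm _ _

theorem eJ_meas {d : ℕ} (τ : Fin d → ℂ →₀ ℝ) : Measurable (eJ τ) := by
  unfold eJ
  exact Finset.measurable_fun_prod _ fun i _ => (eγ_meas (τ i)).comp (measurable_pi_apply i)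

/-- the difference of two products -/
theorem prod_diff {ι : Type} (s : Finset ι) (a b : ι → ℂ) (ha : ∀ i ∈ s, ‖a i‖ ≤ 1)
    (hb : ∀ i ∈ s, ‖b i‖ ≤ 1) : ‖∏ i ∈ s, a i - ∏ i ∈ s, b i‖ ≤ ∑ i ∈ s, ‖a i - b i‖ := by
  classical
  induction s using Finset.induction_on with
  | empty => simp
  | insert i s hi ih =>
    rw [Finset.prod_insert hi, Finset.prod_insert hi, Finset.sum_insert hi]
    have e : a i * ∏ j ∈ s, a j - b i * ∏ j ∈ s, b j =
        (a i - b i) * ∏ j ∈ s, a j + b i * (∏ j ∈ s, a j - ∏ j ∈ s, b j) := by ring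
    rw [e]
    refine (norm_add_le _ _).trans (add_le_add ?_ ?_)
    · rw [norm_mul]
      refine mul_le_of_le_one_right (norm_nonneg _) ?_
      rw [norm_prod]
      exact Finset.prod_le_one (fun j _ => norm_nonneg _)
        fun j hj => ha j (Finset.mem_insert_of_mem hj)
    · rw [norm_mul]
      refine (mul_le_of_le_one_left (norm_nonneg _) (hb i (Finset.mem_insert_self i s))).trans ?_
      exact ih (fun j hj => ha j (Finset.mem_insert_of_mem hj))
        (fun j hj => hb j (Finset.mem_insert_of_mem hj))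

theorem V_int {d : ℕ} {γ : Measure MW} [IsProbabilityMeasure γ] {h : (Fin d → MW) → ℂ}
    (hh : MemLp h 2 (pr d γ)) (τ : Fin d → ℂ →₀ ℝ) :
    Integrable (fun F => (starRingEnd ℂ) (h F) * eJ τ F) (pr d γ) := by
  have := prob_pr d γ
  have hi : Integrable h (pr d γ) := hh.integrable (by norm_num)
  have hb : Integrable (fun x => (starRingEnd ℂ) (h x)) (pr d γ) :=
    (Complex.conjLIE.toContinuousLinearEquiv.toContinuousLinearMap.integrable_comp hi)
  exact hb.mul_bdd (c := 1) (eJ_meas τ).aestronglyMeasurable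
    (Eventually.of_forall fun x => (eJ_norm τ x).le)

theorem val_pr {d : ℕ} {γ : Measure MW} [IsProbabilityMeasure γ] (hγ : IsRandomWave γ)
    (i : Fin d) (τ : ℂ →₀ ℝ) : Integrable (fun F : Fin d → MW => val τ (F i) ^ 2) (pr d γ) ∧
      ∫ F : Fin d → MW, val τ (F i) ^ 2 ∂(pr d γ) = nn τ := by
  obtain ⟨h1, h2⟩ := val_sq hγ τ
  have hmp : MeasurePreserving (Function.eval i) (pr d γ) γ :=
    measurePreserving_eval (fun _ : Fin d => γ) i
  refine ⟨(hmp.integrable_comp h1.aestronglyMeasurable).2 h1, ?_⟩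
  rw [← h2]
  have h3 := integral_map (μ := pr d γ) (φ := Function.eval i) (hmp.measurable.aemeasurable)
    (f := fun f : MW => val τ f ^ 2) (by rw [hmp.map_eq]; exact h1.aestronglyMeasurable)
  rw [hmp.map_eq] at h3
  rw [h3]

theorem V_diff {d : ℕ} {γ : Measure MW} [IsProbabilityMeasure γ] (hγ : IsRandomWave γ)
    {h : (Fin d → MW) → ℂ} (hh : MemLp h 2 (pr d γ)) (τ τ' : Fin d → ℂ →₀ ℝ) {δ : ℝ} (hδ : 0 < δ)
    (hn : ∀ i, nn (τ i - τ' i) ≤ δ ^ 2) :
    ‖∫ F, (starRingEnd ℂ) (h F) * eJ τ F ∂(pr d γ) -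
      ∫ F, (starRingEnd ℂ) (h F) * eJ τ' F ∂(pr d γ)‖ ≤
        d * (δ * ((∫ F, ‖h F‖ ^ 2 ∂(pr d γ)) + 1)) := by
  have := prob_pr d γ
  have hsq : Integrable (fun F => ‖h F‖ ^ 2) (pr d γ) := hh.integrable_norm_pow (by norm_num)
  rw [← integral_sub (V_int hh τ) (V_int hh τ')]
  have hi : ∀ i : Fin d, Integrable (fun F : Fin d → MW => δ / 2 * ‖h F‖ ^ 2 +
      1 / (2 * δ) * val (τ i - τ' i) (F i) ^ 2) (pr d γ) := fun i =>
    (hsq.const_mul _).add ((val_pr hγ i (τ i - τ' i)).1.const_mul _)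
  have e1 : ‖∫ F, ((starRingEnd ℂ) (h F) * eJ τ F - (starRingEnd ℂ) (h F) * eJ τ' F) ∂(pr d γ)‖ ≤
      ∫ F : Fin d → MW, (∑ i, (δ / 2 * ‖h F‖ ^ 2 +
        1 / (2 * δ) * val (τ i - τ' i) (F i) ^ 2)) ∂(pr d γ) := by
    refine norm_integral_le_of_norm_le (integrable_finsetSum _ fun i _ => hi i)
      (Eventually.of_forall fun F => ?_)
    rw [← mul_sub, norm_mul, RCLike.norm_conj]
    have e2 : ‖eJ τ F - eJ τ' F‖ ≤ ∑ i, |val (τ i - τ' i) (F i)| := by
      unfold eJ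
      refine (prod_diff Finset.univ _ _ (fun i _ => (eγ_norm _ _).le)
        (fun i _ => (eγ_norm _ _).le)).trans ?_
      exact Finset.sum_le_sum fun i _ => eγ_sub _ _ _
    calc ‖h F‖ * ‖eJ τ F - eJ τ' F‖ ≤ ‖h F‖ * ∑ i, |val (τ i - τ' i) (F i)| := by gcongr
      _ = ∑ i, ‖h F‖ * |val (τ i - τ' i) (F i)| := Finset.mul_sum _ _ _
      _ ≤ _ := by
        refine Finset.sum_le_sum fun i _ => ?_
        rw [← sq_abs (val (τ i - τ' i) (F i))]
        set s := |val (τ i - τ' i) (F i)|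
        set a := ‖h F‖
        have e3 : 0 ≤ 1 / (2 * δ) * (δ * a - s) ^ 2 := by positivity
        have e4 : 1 / (2 * δ) * (δ * a - s) ^ 2 =
            δ / 2 * a ^ 2 + 1 / (2 * δ) * s ^ 2 - a * s := by
          field_simp
          ring
        linarith
  rw [integral_finsetSum _ fun i _ => hi i] at e1
  refine e1.trans ?_
  have h0 : 0 ≤ ∫ F, ‖h F‖ ^ 2 ∂(pr d γ) := integral_nonneg fun f => by positivity
  have e5 : ∀ i ∈ (Finset.univ : Finset (Fin d)), ∫ F : Fin d → MW, (δ / 2 * ‖h F‖ ^ 2 +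
      1 / (2 * δ) * val (τ i - τ' i) (F i) ^ 2) ∂(pr d γ) ≤
        δ * ((∫ F, ‖h F‖ ^ 2 ∂(pr d γ)) + 1) := by
    intro i _
    rw [integral_add (hsq.const_mul _) ((val_pr hγ i (τ i - τ' i)).1.const_mul _),
      integral_const_mul, integral_const_mul, (val_pr hγ i (τ i - τ' i)).2]
    calc δ / 2 * ∫ F, ‖h F‖ ^ 2 ∂(pr d γ) + 1 / (2 * δ) * nn (τ i - τ' i)
        ≤ δ / 2 * ∫ F, ‖h F‖ ^ 2 ∂(pr d γ) + 1 / (2 * δ) * δ ^ 2 := by
          have := hn i
          gcongr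
      _ = δ / 2 * (∫ F, ‖h F‖ ^ 2 ∂(pr d γ)) + δ / 2 := by
          field_simp
      _ ≤ δ * ((∫ F, ‖h F‖ ^ 2 ∂(pr d γ)) + 1) := by nlinarith
  refine (Finset.sum_le_card_nsmul _ _ _ e5).trans (le_of_eq ?_)
  rw [Finset.card_univ, Fintype.card_fin, nsmul_eq_mul]

/-- **SG/EXT** -/
theorem ext : S_EXT := by
  classical
  intro γ hγp hγ d U hU hne A h hh L hLd hL τ hτ
  have := prob_pr d γ
  set I0 : ℝ := ∫ F, ‖h F‖ ^ 2 ∂(pr d γ) with hI0
  have hI : 0 ≤ I0 := integral_nonneg fun F => by positivity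
  set K : ℝ := (d + 1) * (I0 + 2) with hK
  have hK0 : 0 < K := by positivity
  have h1 : ‖L τ - ∫ F, (starRingEnd ℂ) (h F) * eJ τ F ∂(pr d γ)‖ ≤ 0 := by
    refine le_of_forall_pos_le_add fun ε hε => ?_
    rw [zero_add]
    set δ : ℝ := ε / K with hδ
    have hδ0 : 0 < δ := by positivity
    have hex : ∀ i, ∃ τ' : ℂ →₀ ℝ, (i ∉ A → τ' = 0) ∧ (↑τ'.support : Set ℂ) ⊆ U i ∧
        ∀ α, ‖sb (τ i) α - sb τ' α‖ ≤ δ := by
      intro i
      by_cases hi : i ∈ A
      · obtain ⟨τ', h2, h3⟩ := Pool.Agent.H992.LB.Ap.all (hU i) (hne i) (τ i) δ hδ0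
        exact ⟨τ', fun h' => absurd hi h', h2, h3⟩
      · refine ⟨0, fun _ => rfl, by simp, fun α => ?_⟩
        rw [hτ i hi, sub_self, norm_zero]
        exact hδ0.le
    choose τ' hτ0 hτU hτd using hex
    have hn : ∀ i, nn (τ i - τ' i) ≤ δ ^ 2 := by
      intro i
      refine nn_le hδ0.le fun α => ?_
      have e : sb (τ i - τ' i) α = sb (τ i) α - sb (τ' i) α := by
        have e' := sb_add (τ i - τ' i) (τ' i) α
        rw [sub_add_cancel] at e'
        rw [e']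
        ring
      rw [e]
      exact hτd i α
    have e1 : ‖L τ - L τ'‖ ≤ d * δ := by
      refine (hLd τ τ').trans ?_
      have e5 : ∀ i ∈ (Finset.univ : Finset (Fin d)), √(nn (τ i - τ' i)) ≤ δ := by
        intro i _
        rw [Real.sqrt_le_left hδ0.le]
        exact hn i
      refine (Finset.sum_le_card_nsmul _ _ _ e5).trans (le_of_eq ?_)
      rw [Finset.card_univ, Fintype.card_fin, nsmul_eq_mul]
    have e2 := V_diff hγ hh τ τ' hδ0 hn
    have e3 := hL τ' (fun i hi => hτ0 i hi) hτU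
    rw [← hI0] at e2
    calc ‖L τ - ∫ F, (starRingEnd ℂ) (h F) * eJ τ F ∂(pr d γ)‖ = ‖(L τ - L τ') -
          ((∫ F, (starRingEnd ℂ) (h F) * eJ τ F ∂(pr d γ)) -
            ∫ F, (starRingEnd ℂ) (h F) * eJ τ' F ∂(pr d γ))‖ := by
          rw [e3]
          congr 1
          ring
      _ ≤ d * δ + d * (δ * (I0 + 1)) := (norm_sub_le _ _).trans (add_le_add e1 e2)
      _ = d * (I0 + 2) * δ := by ring
      _ ≤ K * δ := by
          rw [hK]
          refine mul_le_mul_of_nonneg_right ?_ hδ0.le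
          refine mul_le_mul_of_nonneg_right ?_ (by positivity)
          linarith
      _ = ε := by
          rw [hδ]
          field_simp
  exact sub_eq_zero.1 (norm_le_zero_iff.1 h1)

end Pool.Agent.H323.SG
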